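import Pool.Agent.H343.QF.StG

set_option autoImplicit false
set_option linter.unusedSectionVars false

/-! # QF-G15 : deep blocks are big -/

namespace Pool.Agent.H120.QF

open Pool.Agent.TH68 Pool.Agent.Helper97.Hyp Pool.Agent.H343.AN Pool.Agent.H343.QF

/-- a corner far away from the projection of `p` : the projections of `p` and of the corner nearest
to `p` on the line of the block are close -/
theorem close_aux {X : Type} [PseudoMetricSpace X] {δ U Λ : ℝ} (hX : GHyp X δ) {A S : Set X}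
    {p xi xj π π' : X} (hδ0 : 0 ≤ δ) (hδU : δ ≤ U) (hU : 0 < U) (hΛ : 10 ^ 6 * U ≤ Λ)
    (hπ : IsProj (6 * δ) A p π) (hπ' : IsProj (6 * δ) A xi π') (hd : dist π' xj ≤ 300 * U)
    (hpx : IsProj (3 * Λ) S p xi) (hxj : xj ∈ S) (hfar : 30 * Λ ≤ dist xi xj) :
    pd A p xi ≤ 30 * δ := by
  by_contra hcon
  push Not at hcon
  have h1 := far_of_pd hX hπ hπ' (by linarith)
  have h2 := le_pd_of_proj hπ hπ'
  have h3 := dist_triangle p π xj
  have h4 := dist_triangle π π' xj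
  have h5 := dist_triangle xi π' xj
  have h6 := hpx.2 xj hxj
  have h7 : 0 ≤ δ := hδ0
  nlinarith

theorem mc : S_lnproj → S_m1 → S_cor2 → S_mc := by
  intro hln hm1 _ Γ _ W a b δ D R X lam s E Λ H p q i j k hp hq hij hjk hfi hfk
  obtain ⟨m1, m2, m3⟩ := hm1 H
  have hδ1 := H.good.one
  have hδD := H.good.le
  have hR := H.hR
  have hE := H.hE
  have hΛ : (E : ℝ) ≤ Λ := by exact_mod_cast H.hΛ
  have hδU : δ ≤ D + R := by linarith
  have hU : 0 < D + R := by linarith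
  have hne : (Ln W a (X j)).Nonempty := by
    obtain ⟨q0, hq0⟩ := hln H.good (X j) p
    exact ⟨q0, hq0.1⟩
  obtain ⟨πp, hπp⟩ := hln H.good (X j) p
  obtain ⟨πq, hπq⟩ := hln H.good (X j) q
  obtain ⟨πi, hπi⟩ := hln H.good (X j) (pt W (X i))
  obtain ⟨πk, hπk⟩ := hln H.good (X j) (pt W (X k))
  have hdi := (m1 i j hij).2 πi hπi
  have hdk := (m2 j k hjk).2 πk hπk
  have hΛ6 : 10 ^ 6 * (D + R) ≤ (Λ : ℝ) := hE.trans hΛ
  have h1 : pd (Ln W a (X j)) p (pt W (X i)) ≤ 30 * δ :=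
    close_aux H.good.hyp (by linarith) hδU hU hΛ6 hπp hπi hdi hp ⟨j, rfl⟩ hfi
  have h2 : pd (Ln W a (X j)) q (pt W (X k)) ≤ 30 * δ := by
    refine close_aux H.good.hyp (by linarith) hδU hU hΛ6 hπq hπk hdk hq ⟨j + 1, rfl⟩ ?_
    rw [dist_comm]
    exact hfk
  have h3 := m3 i j k hij hjk
  have h4 := pd_tri hne (pt W (X i)) p (pt W (X k))
  have h5 := pd_tri hne p q (pt W (X k))
  rw [pd_symm hne (pt W (X i)) p] at h4
  linarith

end Pool.Agent.H120.QF
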